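import Pool.Agent.W95.BK.Stm

/-!
# Project BK: local degrees exist, are unique and positive
-/

open Polynomial Topology Filter MeasureTheory
open scoped ENNReal

namespace Pool.Agent.W73.BK
open Pool.Agent.W95.BK

universe u

section aux
variable {K : Type u} [NontriviallyNormedField K]

lemma nIn_diff (h : K[X]) {S T : Set K} (hTS : T ⊆ S) :
    nIn h (S \ T) + nIn h T = nIn h S := by
  classical
  have key : ∀ s : Multiset K, Multiset.countP (fun w => w ∈ S \ T) s +
      Multiset.countP (fun w => w ∈ T) s = Multiset.countP (fun w => w ∈ S) s := by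
    intro s
    induction s using Multiset.induction_on with
    | empty => simp
    | cons a s ih =>
      rw [Multiset.countP_cons, Multiset.countP_cons, Multiset.countP_cons, ← ih]
      by_cases h1 : a ∈ T
      · have h2 : a ∈ S := hTS h1
        have h3 : a ∉ S \ T := fun h => h.2 h1
        simp only [h1, h2, h3, if_true, if_false]
        omega
      · by_cases h2 : a ∈ S
        · have h3 : a ∈ S \ T := ⟨h2, h1⟩
          simp only [h1, h2, h3, if_true, if_false]
          omega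
        · have h3 : a ∉ S \ T := fun h => h2 h.1
          simp only [h1, h2, h3, if_false]
          omega
  have := key h.roots
  rw [Multiset.countP_eq_card_filter, Multiset.countP_eq_card_filter,
    Multiset.countP_eq_card_filter] at this
  unfold nIn
  convert this

/-- disc-like sets -/
def DL (S : Set K) : Prop :=
  ∃ q : ℝ → Prop, (∀ s t, s ≤ t → q t → q s) ∧ ∀ c ∈ S, ∀ w, w ∈ S ↔ q ‖w - c‖

lemma DL.nested {S T : Set K} (hS : DL S) (hT : DL T) : S ∩ T = ∅ ∨ S ∩ T = S ∨ S ∩ T = T := by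
  obtain ⟨q, hq, hqS⟩ := hS
  obtain ⟨p, hp, hpT⟩ := hT
  by_cases h : (S ∩ T).Nonempty
  · right
    obtain ⟨c, hcS, hcT⟩ := h
    by_cases hqp : ∀ t, q t → p t
    · left
      refine Set.inter_eq_left.2 fun w hw => ?_
      exact (hpT c hcT w).2 (hqp _ ((hqS c hcS w).1 hw))
    · right
      push Not at hqp
      obtain ⟨t, hqt, hpt⟩ := hqp
      refine Set.inter_eq_right.2 fun w hw => ?_
      have h1 := (hpT c hcT w).1 hw
      refine (hqS c hcS w).2 ?_
      rcases le_total ‖w - c‖ t with h2 | h2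
      · exact hq _ _ h2 hqt
      · exact absurd (hp _ _ h2 h1) hpt
  · left
    exact Set.not_nonempty_iff_eq_empty.1 h

lemma DL.open_ball [IsUltrametricDist K] (a : K) (r : ℝ) : DL {w : K | ‖w - a‖ < r} := by
  refine ⟨fun t => t < r, fun s t h1 h2 => lt_of_le_of_lt h1 h2, ?_⟩
  intro c hc w
  have hc' : ‖c - a‖ < r := hc
  constructor
  · intro hw
    have hw' : ‖w - a‖ < r := hw
    have e : w - c = (w - a) + (a - c) := by ring
    show ‖w - c‖ < r
    rw [e]
    rw [norm_sub_rev] at hc'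
    exact lt_of_le_of_lt (IsUltrametricDist.norm_add_le_max _ _) (max_lt hw' hc')
  · intro hw
    have hw' : ‖w - c‖ < r := hw
    have e : w - a = (w - c) + (c - a) := by ring
    show ‖w - a‖ < r
    rw [e]
    exact lt_of_le_of_lt (IsUltrametricDist.norm_add_le_max _ _) (max_lt hw' hc')

lemma DL.closed_ball [IsUltrametricDist K] (a : K) (r : ℝ) : DL {w : K | ‖w - a‖ ≤ r} := by
  refine ⟨fun t => t ≤ r, fun s t h1 h2 => le_trans h1 h2, ?_⟩
  intro c hc w
  have hc' : ‖c - a‖ ≤ r := hc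
  constructor
  · intro hw
    have hw' : ‖w - a‖ ≤ r := hw
    have e : w - c = (w - a) + (a - c) := by ring
    show ‖w - c‖ ≤ r
    rw [e]
    rw [norm_sub_rev] at hc'
    exact le_trans (IsUltrametricDist.norm_add_le_max _ _) (max_le hw' hc')
  · intro hw
    have hw' : ‖w - c‖ ≤ r := hw
    have e : w - a = (w - c) + (c - a) := by ring
    show ‖w - a‖ ≤ r
    rw [e]
    exact le_trans (IsUltrametricDist.norm_add_le_max _ _) (max_le hw' hc')

variable [IsUltrametricDist K]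

lemma cnt_mono (f : RMap K) {U V : Set (P1B K)} (h : U ⊆ V) (b : K) :
    cnt f U b ≤ cnt f V b := by
  classical
  unfold cnt
  exact Multiset.card_le_card (Multiset.monotone_filter_right _ (fun w hw => h hw))

/-- eventually constant count -/
def EC (f : RMap K) (y : P1B K) (S : Set K) : Prop :=
  ∃ m : ℕ, ∀ᶠ b in toward y, nIn (f.P - C b * f.Q) S = m

lemma EC.diff {f : RMap K} {y : P1B K} {S T : Set K} (hTS : T ⊆ S) (hS : EC f y S)
    (hT : EC f y T) : EC f y (S \ T) := by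
  obtain ⟨m, hm⟩ := hS
  obtain ⟨m', hm'⟩ := hT
  refine ⟨m - m', ?_⟩
  filter_upwards [hm, hm'] with b h1 h2
  have := nIn_diff (f.P - C b * f.Q) hTS
  omega

/-- good discs -/
def Fam (f : RMap K) (y : P1B K) (S : Set K) : Prop :=
  S = ∅ ∨ ∃ (a : K) (r : ℝ) (hr : 0 < r), f.act ((gauss a r hr : BA K) : P1B K) ≠ y ∧
    (S = {w | ‖w - a‖ < r} ∨ S = {w | ‖w - a‖ ≤ r})

lemma Fam.dl {f : RMap K} {y : P1B K} {S : Set K} (h : Fam f y S) : DL S := by
  rcases h with h | ⟨a, r, hr, -, h | h⟩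
  · refine ⟨fun _ => True, fun _ _ _ _ => trivial, ?_⟩
    intro c hc
    rw [h] at hc
    exact absurd hc (Set.notMem_empty c)
  · rw [h]; exact DL.open_ball a r
  · rw [h]; exact DL.closed_ball a r

lemma Fam.inter {f : RMap K} {y : P1B K} {S T : Set K} (hS : Fam f y S) (hT : Fam f y T) :
    Fam f y (S ∩ T) := by
  rcases hS.dl.nested hT.dl with h | h | h
  · left; exact h
  · rw [h]; exact hS
  · rw [h]; exact hT

lemma ec_list {f : RMap K} {y : P1B K} (hfam : ∀ S, Fam f y S → EC f y S) (L : List (Set K)) :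
    (∀ T ∈ L, Fam f y T) → ∀ S, Fam f y S → EC f y {w | w ∈ S ∧ ∀ T ∈ L, w ∉ T} := by
  induction L with
  | nil =>
    intro _ S hS
    have : {w | w ∈ S ∧ ∀ T ∈ ([] : List (Set K)), w ∉ T} = S := by
      ext w; simp
    rw [this]; exact hfam S hS
  | cons T L ih =>
    intro hL S hS
    have hT : Fam f y T := hL T (by simp)
    have hL' : ∀ T ∈ L, Fam f y T := fun T' hT' => hL T' (by simp [hT'])
    have h1 := ih hL' S hS
    have h2 := ih hL' (S ∩ T) (hS.inter hT)
    have h3 : {w | w ∈ S ∩ T ∧ ∀ T ∈ L, w ∉ T} ⊆ {w | w ∈ S ∧ ∀ T ∈ L, w ∉ T} :=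
      fun w hw => ⟨hw.1.1, hw.2⟩
    have h4 := EC.diff h3 h1 h2
    have h5 : {w | w ∈ S ∧ ∀ T' ∈ T :: L, w ∉ T'} =
        {w | w ∈ S ∧ ∀ T ∈ L, w ∉ T} \ {w | w ∈ S ∩ T ∧ ∀ T ∈ L, w ∉ T} := by
      ext w
      simp only [Set.mem_ofPred_eq, List.mem_cons, forall_eq_or_imp, Set.mem_sdiff, Set.mem_inter_iff]
      tauto
    rw [h5]; exact h4

lemma fam_inter_list {f : RMap K} {y : P1B K} (L : List (Set K)) :
    (∀ T ∈ L, Fam f y T) → ∀ S, Fam f y S → Fam f y {w | w ∈ S ∧ ∀ T ∈ L, w ∈ T} := by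
  induction L with
  | nil =>
    intro _ S hS
    have : {w | w ∈ S ∧ ∀ T ∈ ([] : List (Set K)), w ∈ T} = S := by
      ext w; simp
    rw [this]; exact hS
  | cons T L ih =>
    intro hL S hS
    have hT : Fam f y T := hL T (by simp)
    have hL' : ∀ T ∈ L, Fam f y T := fun T' hT' => hL T' (by simp [hT'])
    have h2 := ih hL' (S ∩ T) (hS.inter hT)
    have h5 : {w | w ∈ S ∧ ∀ T' ∈ T :: L, w ∈ T'} = {w | w ∈ S ∩ T ∧ ∀ T ∈ L, w ∈ T} := by
      ext w
      simp only [Set.mem_ofPred_eq, List.mem_cons, forall_eq_or_imp, Set.mem_inter_iff]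
      tauto
    rw [h5]; exact h2

/-- the basic sets given by a finite set of upper and lower conditions -/
def bas (A B : Finset (K × ℝ)) : Set (P1B K) :=
  {z | ∃ y : BA K, z = (y : P1B K) ∧ (∀ p ∈ A, lam y p.1 < p.2) ∧ ∀ p ∈ B, p.2 < lam y p.1}

/-- good systems of conditions at `x` -/
structure GoodSys (f : RMap K) (x : BA K) (A B : Finset (K × ℝ)) : Prop where
  ne : A.Nonempty
  up : ∀ p ∈ A, lam x p.1 < p.2
  low : ∀ p ∈ B, p.2 < lam x p.1
  gA : ∀ p ∈ A, ∃ hr : 0 < p.2, f.act ((gauss p.1 p.2 hr : BA K) : P1B K) ≠ f.act (x : P1B K)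
  gB : ∀ p ∈ B, ∃ hr : 0 < p.2, f.act ((gauss p.1 p.2 hr : BA K) : P1B K) ≠ f.act (x : P1B K)

/-- classical points satisfying the conditions -/
def basK (A B : Finset (K × ℝ)) : Set K :=
  {w | (∀ p ∈ A, ‖w - p.1‖ < p.2) ∧ ∀ p ∈ B, p.2 < ‖w - p.1‖}

lemma mem_bas_cl (hG : S_GLAM.{u}) (A B : Finset (K × ℝ)) (w : K) :
    ((cl w : BA K) : P1B K) ∈ bas A B ↔ w ∈ basK A B := by
  constructor
  · rintro ⟨y, hy, h1, h2⟩
    have hy' : cl w = y := OnePoint.coe_injective hy
    subst hy'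
    refine ⟨fun p hp => ?_, fun p hp => ?_⟩
    · rw [← (hG K w p.1).1]; exact h1 p hp
    · rw [← (hG K w p.1).1]; exact h2 p hp
  · rintro ⟨h1, h2⟩
    refine ⟨cl w, rfl, fun p hp => ?_, fun p hp => ?_⟩
    · rw [(hG K w p.1).1]; exact h1 p hp
    · rw [(hG K w p.1).1]; exact h2 p hp

lemma infty_notMem_bas (A B : Finset (K × ℝ)) : (OnePoint.infty : P1B K) ∉ bas A B := by
  rintro ⟨y, hy, -, -⟩
  exact OnePoint.infty_ne_coe y hy

lemma cnt_bas (hG : S_GLAM.{u}) (f : RMap K) (A B : Finset (K × ℝ)) (b : K) :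
    cnt f (bas A B) b = nIn (f.P - C b * f.Q) (basK A B) := by
  classical
  unfold cnt nIn fib
  rw [Multiset.filter_add, Multiset.card_add]
  have h1 : (Multiset.filter (fun w => w ∈ bas A B)
      (Multiset.replicate (f.d - (f.P - C b * f.Q).natDegree) (OnePoint.infty : P1B K))) = 0 := by
    rw [Multiset.filter_eq_nil]
    intro a ha
    rw [Multiset.eq_of_mem_replicate ha]
    exact infty_notMem_bas A B
  rw [h1, Multiset.card_zero, add_zero, Multiset.filter_map, Multiset.card_map]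
  congr 1
  refine Multiset.filter_congr fun w _ => ?_
  exact mem_bas_cl hG A B w

end aux

theorem ldu : S_DENSE.{u} → S_LDU.{u} := by
  intro hD K _ _ _ f x m m' hm hm'
  have key : ∀ m m', IsLocalDeg f x m → IsLocalDeg f x m' → m' ≤ m := by
    intro m m' hm hm'
    obtain ⟨U, hU, -, hUm⟩ := hm Set.univ Filter.univ_mem
    obtain ⟨U', hU', hsub, hU'm⟩ := hm' U hU
    have := hD K (f.act x)
    obtain ⟨b, hb, hb'⟩ := (hUm.and hU'm).exists
    rw [← hb, ← hb']
    exact cnt_mono f hsub b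
  exact le_antisymm (key _ _ hm' hm) (key _ _ hm hm')

theorem ldex : S_LC.{u} → S_NC.{u} → S_NB.{u} → S_DENSE.{u} → S_ACTC.{u} → S_ACT.{u} →
    S_GLAM.{u} → S_ISO.{u} → S_LDU.{u} → S_AVOID.{u} → S_LDEX.{u} := by
  intro hLC hNC hNB hD hAC hA hG _ hU hAv K _ _ _ f x hx
  classical
  obtain ⟨hA1, hA2, -, hA4, -⟩ := hA K f
  obtain ⟨y, hy, hfy, -, -⟩ := hA1 x hx
  obtain ⟨hN1, -, hN3, hN4⟩ := hNB K
  obtain ⟨hAv1, hAv2⟩ := hAv K x hx
  have hlam : ∀ a : K, 0 < lam x a := fun a =>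
    lt_of_le_of_ne (x.nonneg' _) (Ne.symm (hAv1 _ (X_sub_C_ne_zero a)))
  -- families
  have hfam : ∀ S, Fam f (f.act (x : P1B K)) S → EC f (f.act (x : P1B K)) S := by
    rintro S (h | ⟨a, r, hr, hne, h⟩)
    · refine ⟨0, Filter.Eventually.of_forall fun b => ?_⟩
      rw [h]; unfold nIn; simp
    · rw [hfy] at hne
      obtain ⟨m, m', hm⟩ := hLC K f a r hr y hy hne
      rw [hfy]
      rcases h with h | h
      · refine ⟨m, ?_⟩
        rw [h]
        exact hm.mono fun b hb => hb.1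
      · refine ⟨m', ?_⟩
        rw [h]
        exact hm.mono fun b hb => hb.2
  -- counts of good systems
  have hcount : ∀ A B, GoodSys f x A B →
      ∃ m, ∀ᶠ b in toward (f.act (x : P1B K)), cnt f (bas A B) b = m := by
    intro A B hAB
    obtain ⟨p₀, hp₀⟩ := hAB.ne
    have e : basK A B = {w | w ∈ {w | w ∈ {w : K | ‖w - p₀.1‖ < p₀.2} ∧
        ∀ T ∈ A.toList.map (fun p => {w : K | ‖w - p.1‖ < p.2}), w ∈ T} ∧
        ∀ T ∈ B.toList.map (fun p => {w : K | ‖w - p.1‖ ≤ p.2}), w ∉ T} := by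
      ext w
      simp only [basK, Set.mem_ofPred_eq, List.mem_map, Finset.mem_toList,
        forall_exists_index, and_imp, forall_apply_eq_imp_iff₂, not_le]
      constructor
      · rintro ⟨h1, h2⟩
        exact ⟨⟨h1 p₀ hp₀, h1⟩, h2⟩
      · rintro ⟨⟨-, h1⟩, h2⟩
        exact ⟨h1, h2⟩
    have h1 : Fam f (f.act (x : P1B K)) {w | w ∈ {w : K | ‖w - p₀.1‖ < p₀.2} ∧
        ∀ T ∈ A.toList.map (fun p => {w : K | ‖w - p.1‖ < p.2}), w ∈ T} := by
      refine fam_inter_list _ ?_ _ ?_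
      · intro T hT
        rw [List.mem_map] at hT
        obtain ⟨p, hp, rfl⟩ := hT
        obtain ⟨hr, hne⟩ := hAB.gA p (Finset.mem_toList.1 hp)
        exact Or.inr ⟨p.1, p.2, hr, hne, Or.inl rfl⟩
      · obtain ⟨hr, hne⟩ := hAB.gA p₀ hp₀
        exact Or.inr ⟨p₀.1, p₀.2, hr, hne, Or.inl rfl⟩
    have h2 : EC f (f.act (x : P1B K)) (basK A B) := by
      rw [e]
      refine ec_list hfam _ ?_ _ h1
      intro T hT
      rw [List.mem_map] at hT
      obtain ⟨p, hp, rfl⟩ := hT
      obtain ⟨hr, hne⟩ := hAB.gB p (Finset.mem_toList.1 hp)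
      exact Or.inr ⟨p.1, p.2, hr, hne, Or.inr rfl⟩
    obtain ⟨m, hm⟩ := h2
    refine ⟨m, hm.mono fun b hb => ?_⟩
    rw [cnt_bas hG, hb]
  -- good systems are neighbourhoods
  have hnhds : ∀ A B, GoodSys f x A B → bas A B ∈ 𝓝 (x : P1B K) := by
    intro A B hAB
    obtain ⟨p₀, hp₀⟩ := hAB.ne
    have e1 : (⋂ p ∈ A, ball p.1 p.2) ∩
        (⋂ p ∈ B, {z : P1B K | ∀ y : BA K, z = (y : P1B K) → p.2 < lam y p.1}) ⊆ bas A B := by
      rintro z ⟨h1, h2⟩
      rw [Set.mem_iInter₂] at h1 h2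
      obtain ⟨y, hy, -⟩ := h1 p₀ hp₀
      refine ⟨y, hy, fun p hp => ?_, fun p hp => h2 p hp y hy⟩
      obtain ⟨y', hy', h⟩ := h1 p hp
      rw [hy] at hy'
      have : y = y' := OnePoint.coe_injective hy'
      rw [this]; exact h
    refine Filter.mem_of_superset ?_ e1
    refine Filter.inter_mem ?_ ?_
    · rw [Filter.biInter_finset_mem]
      intro p hp
      exact (hN3 p.1 p.2).mem_nhds ⟨x, rfl, hAB.up p hp⟩
    · rw [Filter.biInter_finset_mem]
      intro p hp
      refine (hN4 p.1 p.2).mem_nhds ?_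
      intro y hy
      have : x = y := OnePoint.coe_injective hy
      rw [← this]; exact hAB.low p hp
  -- existence of small good systems
  have hsmall : ∀ U₀ ∈ 𝓝 (x : P1B K), ∃ A B, GoodSys f x A B ∧ bas A B ⊆ U₀ := by
    intro U₀ hU₀
    obtain ⟨A, B, hA, hB, hsub⟩ := hN1 x U₀ hU₀
    have hup : ∀ p : K × ℝ, lam x p.1 < p.2 → ∃ r : ℝ, lam x p.1 < r ∧ r < p.2 ∧
        ∃ hr : 0 < r, f.act ((gauss p.1 r hr : BA K) : P1B K) ≠ f.act (x : P1B K) := by
      intro p hp
      obtain ⟨r, hr, h1, h2, h3⟩ := hNC K f p.1 (lam x p.1) p.2 (f.act (x : P1B K)) (hlam _) hp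
      exact ⟨r, h1, h2, hr, h3⟩
    have hlow : ∀ p : K × ℝ, 0 ≤ p.2 → p.2 < lam x p.1 → ∃ r : ℝ, p.2 < r ∧ r < lam x p.1 ∧
        ∃ hr : 0 < r, f.act ((gauss p.1 r hr : BA K) : P1B K) ≠ f.act (x : P1B K) := by
      intro p hp0 hp
      have hpos := hlam p.1
      obtain ⟨r, hr, h1, h2, h3⟩ := hNC K f p.1 ((p.2 + lam x p.1) / 2) (lam x p.1)
        (f.act (x : P1B K)) (by linarith) (by linarith)
      exact ⟨r, by linarith, h2, hr, h3⟩
    choose! ra ha1 ha2 ha3 using hup
    choose! rb hb1 hb2 hb3 using hlow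
    set A₁ : Finset (K × ℝ) := insert ((0 : K), lam x 0 + 1) A with hA₁
    have hA₁up : ∀ p ∈ A₁, lam x p.1 < p.2 := by
      intro p hp
      rw [hA₁, Finset.mem_insert] at hp
      rcases hp with rfl | hp
      · simp
      · exact hA p hp
    refine ⟨A₁.image (fun p => (p.1, ra p)), B.image (fun p => (p.1, rb p)), ?_, ?_⟩
    · refine ⟨?_, ?_, ?_, ?_, ?_⟩
      · exact (Finset.insert_nonempty _ _).image _
      · intro p hp
        obtain ⟨q, hq, rfl⟩ := Finset.mem_image.1 hp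
        exact ha1 q (hA₁up q hq)
      · intro p hp
        obtain ⟨q, hq, rfl⟩ := Finset.mem_image.1 hp
        exact hb2 q (hB q hq).1 (hB q hq).2
      · intro p hp
        obtain ⟨q, hq, rfl⟩ := Finset.mem_image.1 hp
        exact ha3 q (hA₁up q hq)
      · intro p hp
        obtain ⟨q, hq, rfl⟩ := Finset.mem_image.1 hp
        exact hb3 q (hB q hq).1 (hB q hq).2
    · rintro z ⟨y, rfl, h1, h2⟩
      refine hsub y ?_ ?_
      · intro p hp
        have hp' : p ∈ A₁ := Finset.mem_insert_of_mem hp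
        have := h1 (p.1, ra p) (Finset.mem_image_of_mem _ hp')
        exact lt_trans this (ha2 p (hA p hp))
      · intro p hp
        have := h2 (p.1, rb p) (Finset.mem_image_of_mem _ hp)
        exact lt_trans (hb1 p (hB p hp).1 (hB p hp).2) this
  -- intersections
  have hinter : ∀ A B A' B', GoodSys f x A B → GoodSys f x A' B' →
      GoodSys f x (A ∪ A') (B ∪ B') ∧ bas (A ∪ A') (B ∪ B') ⊆ bas A B ∧
      bas (A ∪ A') (B ∪ B') ⊆ bas A' B' := by
    intro A B A' B' h h'
    refine ⟨⟨?_, ?_, ?_, ?_, ?_⟩, ?_, ?_⟩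
    · exact h.ne.mono Finset.subset_union_left
    · intro p hp
      rcases Finset.mem_union.1 hp with hp | hp
      · exact h.up p hp
      · exact h'.up p hp
    · intro p hp
      rcases Finset.mem_union.1 hp with hp | hp
      · exact h.low p hp
      · exact h'.low p hp
    · intro p hp
      rcases Finset.mem_union.1 hp with hp | hp
      · exact h.gA p hp
      · exact h'.gA p hp
    · intro p hp
      rcases Finset.mem_union.1 hp with hp | hp
      · exact h.gB p hp
      · exact h'.gB p hp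
    · rintro z ⟨y, rfl, h1, h2⟩
      exact ⟨y, rfl, fun p hp => h1 p (Finset.mem_union_left _ hp),
        fun p hp => h2 p (Finset.mem_union_left _ hp)⟩
    · rintro z ⟨y, rfl, h1, h2⟩
      exact ⟨y, rfl, fun p hp => h1 p (Finset.mem_union_right _ hp),
        fun p hp => h2 p (Finset.mem_union_right _ hp)⟩
  have hne := hD K (f.act (x : P1B K))
  have hnex := hD K (x : P1B K)
  -- the minimal count
  let Q : ℕ → Prop := fun m => ∃ A B, GoodSys f x A B ∧
    ∀ᶠ b in toward (f.act (x : P1B K)), cnt f (bas A B) b = m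
  have hQ : ∃ m, Q m := by
    obtain ⟨A, B, hAB, -⟩ := hsmall Set.univ Filter.univ_mem
    obtain ⟨m, hm⟩ := hcount A B hAB
    exact ⟨m, A, B, hAB, hm⟩
  obtain ⟨A₀, B₀, hG₀, hm₀⟩ := Nat.find_spec hQ
  set m := Nat.find hQ with hmdef
  have hloc : IsLocalDeg f (x : P1B K) m := by
    intro U₀ hU₀
    obtain ⟨A, B, hAB, hsub⟩ := hsmall U₀ hU₀
    obtain ⟨h1, h2, h3⟩ := hinter A B A₀ B₀ hAB hG₀
    refine ⟨bas (A ∪ A₀) (B ∪ B₀), hnhds _ _ h1, h2.trans hsub, ?_⟩
    obtain ⟨m', hm'⟩ := hcount _ _ h1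
    have hle : m ≤ m' := Nat.find_min' hQ ⟨_, _, h1, hm'⟩
    obtain ⟨b, hb, hb'⟩ := (hm₀.and hm').exists
    have hge : m' ≤ m := by
      rw [← hb, ← hb']
      exact cnt_mono f h3 b
    rw [le_antisymm hle hge]
    exact hm'
  have hpos : 1 ≤ m := by
    obtain ⟨U, hUn, -, hUm⟩ := hloc Set.univ Filter.univ_mem
    obtain ⟨V, hV, hVm⟩ := Filter.mem_comap.1 hUm
    have hcont : Continuous f.act := hAC K f
    have hpre : f.act ⁻¹' V ∈ 𝓝 (x : P1B K) := hcont.continuousAt hV
    have hQ0 : f.Q ≠ 0 := by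
      intro h0
      have hc := f.cop
      rw [h0, isCoprime_zero_right] at hc
      have h1 : f.P.natDegree = 0 := natDegree_eq_zero_of_isUnit hc
      have h2 := f.deg_eq
      have h3 := f.pos
      rw [h1, h0, natDegree_zero] at h2
      simp at h2
      omega
    have hev1 : ∀ᶠ w in toward (x : P1B K), ((cl w : BA K) : P1B K) ∈ U ∩ f.act ⁻¹' V :=
      Filter.preimage_mem_comap (Filter.inter_mem hUn hpre)
    have hev2 : ∀ᶠ w in toward (x : P1B K), f.Q.eval w ≠ 0 := by
      have : ∀ᶠ w in toward (x : P1B K), ∀ c ∈ f.Q.roots.toFinset, w ≠ c := by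
        rw [Filter.eventually_all_finset]
        intro c _
        exact hAv2 c
      filter_upwards [this] with w hw h0
      refine hw w ?_ rfl
      rw [Multiset.mem_toFinset, mem_roots hQ0]
      exact h0
    obtain ⟨w, ⟨hwU, hwV⟩, hwQ⟩ := (hev1.and hev2).exists
    set b := f.P.eval w / f.Q.eval w with hb
    have hbV : ((cl b : BA K) : P1B K) ∈ V := by
      have := hA2 w hwQ
      rw [Set.mem_preimage, this] at hwV
      exact hwV
    have hcb : cnt f U b = m := hVm hbV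
    have hmem : ((cl w : BA K) : P1B K) ∈ fib f b := by
      unfold fib
      rw [Multiset.mem_add]
      left
      refine Multiset.mem_map_of_mem _ ?_
      have hne0 : f.P - C b * f.Q ≠ 0 := by
        intro h0
        have h1 : f.P = C b * f.Q := sub_eq_zero.1 h0
        have hc := f.cop
        rw [h1] at hc
        have hu : IsUnit f.Q := by
          have : f.Q ∣ C b * f.Q := Dvd.intro_left _ rfl
          exact hc.isUnit_of_dvd' this dvd_rfl
        have h2 : f.Q.natDegree = 0 := natDegree_eq_zero_of_isUnit hu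
        have h3 : f.P.natDegree ≤ 0 := by
          rw [h1]
          exact (natDegree_C_mul_le _ _).trans (by rw [h2])
        have h4 := f.deg_eq
        have h5 := f.pos
        rw [h2] at h4
        have h6 : f.P.natDegree = 0 := by omega
        rw [h6] at h4
        simp at h4
        omega
      rw [mem_roots hne0]
      simp only [IsRoot, eval_sub, eval_mul, eval_C]
      rw [hb, div_mul_cancel₀ _ hwQ, sub_self]
    rw [← hcb]
    unfold cnt
    rw [Nat.succ_le_iff, Multiset.card_pos_iff_exists_mem]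
    exact ⟨_, Multiset.mem_filter.2 ⟨hmem, hwU⟩⟩
  refine ⟨m, hpos, hloc, ?_⟩
  unfold localDeg
  have hex : ∃ m, IsLocalDeg f (x : P1B K) m := ⟨m, hloc⟩
  rw [dif_pos hex]
  exact hU K f (x : P1B K) _ _ (Nat.find_spec hex) hloc

end Pool.Agent.W73.BK
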